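import Pool.Agent.SelQ.NonnegFin

/-!
MP_995735_nt, Q1 in degree 2: a member of the Selberg class of degree 2 with a pole at `s = 1`, or
with nonnegative coefficients, is `ζ(s)^2` or `ζ(s) L(s + iθ, χ)` with a primitive Dirichlet
character `χ ≠ 1`; if its coefficients are real, then `θ = 0` and `χ ^ 2 = 1`.
-/

namespace Pool.Agent.Results.MP_995735_nt.DegreeTwo

open Complex Pool.Agent.SelPole Pool.Agent.SelTwo

/-- Let `F` be in the Selberg class, of degree 2 (any conductor, gamma factors and root number),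
with a pole at `s = 1` or with coefficients `a(n) ≥ 0` for all `n ≥ 1`. Then `F` has a pole of some
order `r ≥ 1` at `1` and `F = ζ^r L₁` with `L₁` entire; and either `r = 2` and `L₁ = 1`, or `r = 1`
and `L₁(s) = L(s + iθ, χ)` for a primitive Dirichlet character `χ ≠ 1` and a real `θ`. If all
coefficients are real, then `θ = 0` and `χ ^ 2 = 1`. -/
theorem result {F : ℂ → ℂ} {a b : ℕ → ℂ} (hF : IsSelberg F a b) (hdeg : DegreeTwo F)
    (h : meromorphicOrderAt F 1 < 0 ∨ ∀ n : ℕ, 1 ≤ n → 0 ≤ (a n).re ∧ (a n).im = 0) :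
    ∃ (r : ℕ) (L₁ : ℂ → ℂ), 1 ≤ r ∧
      meromorphicOrderAt F 1 = ((-(r : ℤ) : ℤ) : WithTop ℤ) ∧ Differentiable ℂ L₁ ∧
      (∀ s : ℂ, s ≠ 1 → F s = riemannZeta s ^ r * L₁ s) ∧
      ((r = 2 ∧ ∀ s : ℂ, L₁ s = 1) ∨
        (r = 1 ∧ ∃ (q : ℕ) (_ : NeZero q) (χ : DirichletCharacter ℂ q) (θ : ℝ),
          χ.IsPrimitive ∧ χ ≠ 1 ∧ ((∀ n : ℕ, 1 ≤ n → (a n).im = 0) → θ = 0 ∧ χ ^ 2 = 1) ∧
          ∀ s : ℂ, L₁ s = DirichletCharacter.LFunction χ (s + θ * I))) :=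
  Pool.Agent.SelQ.degree_two_nonneg hF hdeg h

end Pool.Agent.Results.MP_995735_nt.DegreeTwo
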