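import Pool.Agent.SelRel.Final

/-!
MP_995735_nt, Q1, partial answer: Q1 holds for the functions of the Selberg class whose prime
coefficients are given, outside a thin set of primes, by Dirichlet characters.
-/

namespace Pool.Agent.Results.MP_995735_nt.DirichletAtPrimes

open Complex Pool.Agent.SelPole

/-- `F` has the property asked for in Q1: if `F` has a pole of order exactly `r ≥ 1` at `s = 1`, then
`F = ζ^r L₁` with `L₁` entire. -/
def Q1Holds (F : ℂ → ℂ) : Prop := ∀ r : ℕ, 1 ≤ r →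
  meromorphicOrderAt F 1 = ((-(r : ℤ) : ℤ) : WithTop ℤ) →
  ∃ L₁ : ℂ → ℂ, Differentiable ℂ L₁ ∧ ∀ s : ℂ, s ≠ 1 → F s = riemannZeta s ^ r * L₁ s

/-- `∑_p min(1, |δ(p)|) p^(-σ) < ∞` for some `σ < 1/2`, the sum being over the primes that do not
divide `q`. -/
def SmallAtPrimes (q : ℕ) (δ : ℕ → ℂ) : Prop := ∃ σ : ℝ, σ < 1 / 2 ∧
  Summable (fun p : Nat.Primes => open Classical in
    min 1 ‖(if (p : ℕ) ∣ q then 0 else δ p)‖ * ((p : ℕ) : ℝ) ^ (-σ))

/-- The Euler factor at every prime `p` is `∏_(i<d) (1 - α_i p^(-s))^(-1)`, in terms of the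
coefficients `b` of `log F`: `k b(p^k) = ∑ α_i^k`. -/
def PolynomialEuler (b : ℕ → ℂ) (d : ℕ) : Prop := ∀ p : ℕ, p.Prime → ∃ α : Fin d → ℂ,
  ∀ k : ℕ, 1 ≤ k → (k : ℂ) * b (p ^ k) = ∑ i, α i ^ k

/-- `L(s + iθ, χ*)` for `x = (χ, θ)`, where `χ*` is the primitive character that induces `χ`;
this is `ζ(s + iθ)` for the trivial character. -/
noncomputable def LStar {q : ℕ} [NeZero q] (x : DirichletCharacter ℂ q × ℝ) (s : ℂ) : ℂ :=
  have : NeZero x.1.conductor := ⟨x.1.conductor_ne_zero⟩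
  DirichletCharacter.LFunction x.1.primitiveCharacter (s + x.2 * I)

/-- Let `F` be in the Selberg class, with polynomial Euler product and Dirichlet coefficients
`a(n)`, and let `q ≥ 1`.

(1) Let `X` be a finite set of pairs `(χ, θ)` of a Dirichlet character mod `q` and a real number
(`θ = 0` if `χ` is trivial) such that some residue class `u` separates the characters in `X` with
the same `θ`, and suppose that `a(p) = ∑_X c_x χ(p) p^(-iθ)` up to a small error, with complex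
`c_x`. Then the `c_x` are nonnegative integers, `F` is the product of the `L(s + iθ, χ*)^(c_x)`,
and `F` satisfies Q1.

(2) Suppose that the residues prime to `q` form a cyclic group and that `a(p)` depends only on the
residue of `p` mod `q`, up to a small error. Then `F` is a product of functions `L(s, χ*)` with
characters mod `q`, and `F` satisfies Q1. -/
theorem result {F : ℂ → ℂ} {a b : ℕ → ℂ} (hF : IsSelberg F a b) {d : ℕ}
    (hP : PolynomialEuler b d) (q : ℕ) [NeZero q] :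
    (∀ X : Finset (DirichletCharacter ℂ q × ℝ), (∀ x ∈ X, x.1 = 1 → x.2 = 0) →
      ∀ u : (ZMod q)ˣ, (∀ x ∈ X, ∀ y ∈ X, x.2 = y.2 → x.1 u = y.1 u → x = y) →
      ∀ c : DirichletCharacter ℂ q × ℝ → ℂ,
      SmallAtPrimes q (fun p => a p -
        ∑ x ∈ X, c x * (x.1 (p : ZMod q) * (p : ℂ) ^ (-((x.2 : ℂ) * I)))) →
      ∃ m : DirichletCharacter ℂ q × ℝ → ℕ, (∀ x ∈ X, c x = m x) ∧
        (∀ s : ℂ, s ≠ 1 → F s = ∏ x ∈ X, LStar x s ^ m x) ∧ Q1Holds F) ∧
    (IsCyclic (ZMod q)ˣ → ∀ f : ZMod q → ℂ, SmallAtPrimes q (fun p => a p - f (p : ZMod q)) →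
      (∃ m : DirichletCharacter ℂ q → ℕ, ∀ s : ℂ, s ≠ 1 →
        F s = ∏ᶠ χ : DirichletCharacter ℂ q, LStar (χ, 0) s ^ m χ) ∧ Q1Holds F) := by
  refine ⟨fun X hX u hu c hrel => (Pool.Agent.SelRel.final_dir hF hP X hX c hrel).2 u hu,
    fun hq f hrel => ?_⟩
  obtain ⟨⟨m, hm⟩, h⟩ := Pool.Agent.SelRel.final_cyc hF hP hq f hrel
  refine ⟨⟨m, fun s hs => ?_⟩, h⟩
  rw [hm s hs]
  refine finprod_congr (fun χ => ?_)
  simp [LStar]

end Pool.Agent.Results.MP_995735_nt.DirichletAtPrimes
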