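import Pool.Agent.SelRel.Final

/-!
MP_995735_nt, Q1, partial answer: a linear relation with complex coefficients between the prime
coefficients of functions of the Selberg class, known only at primes and only up to a thin set,
is a relation between the functions; Q1 is inherited.
-/

namespace Pool.Agent.Results.MP_995735_nt.PrimeRelations

open Complex Pool.Agent.SelPole

/-- `F` has the property asked for in Q1: if `F` has a pole of order exactly `r ≥ 1` at `s = 1`, then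
`F = ζ^r L₁` with `L₁` entire. -/
def Q1Holds (F : ℂ → ℂ) : Prop := ∀ r : ℕ, 1 ≤ r →
  meromorphicOrderAt F 1 = ((-(r : ℤ) : ℤ) : WithTop ℤ) →
  ∃ L₁ : ℂ → ℂ, Differentiable ℂ L₁ ∧ ∀ s : ℂ, s ≠ 1 → F s = riemannZeta s ^ r * L₁ s

/-- `∑_p min(1, |δ(p)|) p^(-σ) < ∞` for some `σ < 1/2`. -/
def SmallAtPrimes (δ : ℕ → ℂ) : Prop := ∃ σ : ℝ, σ < 1 / 2 ∧
  Summable (fun p : Nat.Primes => min 1 ‖δ p‖ * ((p : ℕ) : ℝ) ^ (-σ))

/-- `∑_p |δ(p)|^2 log p p^(-1-h) ≤ K / h` for `0 < h ≤ 1`. -/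
def MeanSquareBounded (δ : ℕ → ℂ) : Prop := ∃ K : ℝ, ∀ h : ℝ, 0 < h → h ≤ 1 →
  Summable (fun p : Nat.Primes => ‖δ p‖ ^ 2 * Real.log p * ((p : ℕ) : ℝ) ^ (-(1 + h))) ∧
  h * ∑' p : Nat.Primes, ‖δ p‖ ^ 2 * Real.log p * ((p : ℕ) : ℝ) ^ (-(1 + h)) ≤ K

/-- The Euler factor at every prime `p` is `∏_(i<d) (1 - α_i p^(-s))^(-1)`, in terms of the
coefficients `b` of `log F`: `k b(p^k) = ∑ α_i^k`. -/
def PolynomialEuler (b : ℕ → ℂ) (d : ℕ) : Prop := ∀ p : ℕ, p.Prime → ∃ α : Fin d → ℂ,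
  ∀ k : ℕ, 1 ≤ k → (k : ℂ) * b (p ^ k) = ∑ i, α i ^ k

/-- Let `F` and `L_1, …, L_k` be in the Selberg class, with coefficients `a, aL_j` and coefficients
of the logarithms `b, bL_j`, let `c_j` be complex numbers and suppose that
`a(p) = ∑ c_j aL_j(p)` up to a small error at the primes, and that at the squares of primes
`b - ∑ c_j bL_j` is bounded in mean square (or all functions have polynomial Euler products). Then
`b = ∑ c_j bL_j` everywhere, the orders satisfy the same relation at every point of the plane,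
some power `F^N`, `N ≥ 1`, is a product of integral powers of the `L_j`, at each prime where the
Euler factors are polynomial the multiplicities of every nonzero local root satisfy the relation,
and if for every `j` either `c_j` is real and nonnegative and `L_j` satisfies Q1, or `L_j = ζ`, then
`F` satisfies Q1. -/
theorem result {F : ℂ → ℂ} {a b : ℕ → ℂ} (hF : IsSelberg F a b) {k : ℕ} {L : Fin k → ℂ → ℂ}
    {aL bL : Fin k → ℕ → ℂ} (hL : ∀ j, IsSelberg (L j) (aL j) (bL j)) {c : Fin k → ℂ}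
    (h1 : SmallAtPrimes (fun p => a p - ∑ j, c j * aL j p))
    (h2 : MeanSquareBounded (fun p => b (p ^ 2) - ∑ j, c j * bL j (p ^ 2)) ∨
      ((∃ d, PolynomialEuler b d) ∧ ∀ j, ∃ d, PolynomialEuler (bL j) d)) :
    (∀ n, b n = ∑ j, c j * bL j n) ∧
    (∀ z, ((meromorphicOrderAt F z).untop₀ : ℂ) =
      ∑ j, c j * ((meromorphicOrderAt (L j) z).untop₀ : ℂ)) ∧
    (∃ (N : ℕ) (m : Fin k → ℤ), 0 < N ∧ (∀ n, (N : ℂ) * b n = ∑ j, (m j : ℂ) * bL j n) ∧
      ∀ s : ℂ, s ≠ 1 → F s ^ N * ∏ j, L j s ^ (-m j).toNat = ∏ j, L j s ^ (m j).toNat) ∧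
    (∀ p : ℕ, p.Prime → ∀ (d : ℕ) (α : Fin d → ℂ),
      (∀ n : ℕ, 1 ≤ n → (n : ℂ) * b (p ^ n) = ∑ i, α i ^ n) →
      ∀ (e : Fin k → ℕ) (β : ∀ j, Fin (e j) → ℂ),
      (∀ j, ∀ n : ℕ, 1 ≤ n → (n : ℂ) * bL j (p ^ n) = ∑ i, β j i ^ n) →
      ∀ ω : ℂ, ω ≠ 0 →
        (Nat.card {i // α i = ω} : ℂ) = ∑ j, c j * (Nat.card {i // β j i = ω} : ℂ)) ∧
    ((∀ j, (∃ x : ℝ, 0 ≤ x ∧ c j = x ∧ Q1Holds (L j)) ∨
        ∀ s : ℂ, s ≠ 1 → L j s = riemannZeta s) → Q1Holds F) :=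
  Pool.Agent.SelRel.final_rel hF hL h1 h2

end Pool.Agent.Results.MP_995735_nt.PrimeRelations
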