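import Pool.Agent.PrimesOnly.CFinal

/-!
MP_995735_nt, Q1, partial answer: comparison of the coefficients of `log F` and of `log (ζ^r L)`
at primes only (a bounded error is allowed at squares of primes) determines `F`.
-/

namespace Pool.Agent.Results.MP_995735_nt.PrimesOnly

open Complex Pool.Agent.SelPole
open scoped ArithmeticFunction.vonMangoldt

/-- Let `F` be in the Selberg class with a pole of order exactly `r` at `s = 1`. Let `L` be entire
with real coefficients `c(n)` of `log L`, `|c(n)| ≤ C n^θ` for some `θ < 1/2` (for instance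
`L = 1`, `c = 0`). Let `E` be a set of integers that is thin of exponent less than `1/2`.
Suppose that, for the integers `n` outside `E` which are not squares of primes, either
`r Λ(n) + c(n) log n ≤ Re b(n) log n` for all of them, or the opposite inequality for all of them,
and that the same holds at the squares of primes outside `E` up to a bounded error. In the first
case suppose `L(1) ≠ 0` and that the order of `L` at each real point of `(1/2, 1)` is at most that
of `F`; in the second case suppose the reverse. Then `F(s) conj(F(conj s)) = (ζ(s)^r L(s))^2`.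
Moreover `F = ζ^r L` if, for the `n` outside `E` which are not squares of primes, equality in the
assumption forces `b(n)` to be real, and if the imaginary part of `b` is bounded at the squares of
primes outside `E` (both hold if `b` is real). -/
theorem result {F : ℂ → ℂ} {a b : ℕ → ℂ} (hF : IsSelberg F a b) {r : ℕ}
    (hpole : meromorphicOrderAt F 1 = ((-(r : ℤ) : ℤ) : WithTop ℤ))
    {L : ℂ → ℂ} {c : ℕ → ℝ} (hL : IsEulerProduct L (fun n => (c n : ℂ)))
    (hLent : Differentiable ℂ L) {θ C : ℝ} (hθ : θ < 1 / 2)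
    (hc : ∀ n : ℕ, 1 ≤ n → |c n| ≤ C * (n : ℝ) ^ θ) {E : Set ℕ} {σ₀ : ℝ} (hσ₀ : σ₀ < 1 / 2)
    (hE : Summable (E.indicator fun n : ℕ =>
      ((‖b n‖ + |c n|) * Real.log n + Λ n) * (n : ℝ) ^ (-σ₀))) {K : ℝ}
    (h : ((∀ n : ℕ, n ∉ E → (∀ p : ℕ, p.Prime → n ≠ p ^ 2) →
            r * Λ n + c n * Real.log n ≤ (b n).re * Real.log n) ∧
          (∀ p : ℕ, p.Prime → p ^ 2 ∉ E → c (p ^ 2) - K ≤ (b (p ^ 2)).re) ∧ L 1 ≠ 0 ∧
          ∀ x : ℝ, 1 / 2 < x → x < 1 → meromorphicOrderAt L x ≤ meromorphicOrderAt F x) ∨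
        ((∀ n : ℕ, n ∉ E → (∀ p : ℕ, p.Prime → n ≠ p ^ 2) →
            (b n).re * Real.log n ≤ r * Λ n + c n * Real.log n) ∧
          (∀ p : ℕ, p.Prime → p ^ 2 ∉ E → (b (p ^ 2)).re ≤ c (p ^ 2) + K) ∧
          ∀ x : ℝ, 1 / 2 < x → x < 1 → meromorphicOrderAt F x ≤ meromorphicOrderAt L x)) :
    (∀ s : ℂ, s ≠ 1 → F s * (starRingEnd ℂ) (F ((starRingEnd ℂ) s)) =
      (riemannZeta s ^ r * L s) ^ 2) ∧
    ((∀ n : ℕ, n ∉ E → (∀ p : ℕ, p.Prime → n ≠ p ^ 2) →
        (b n).re * Real.log n = r * Λ n + c n * Real.log n → (b n).im = 0) →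
      (∀ p : ℕ, p.Prime → p ^ 2 ∉ E → |(b (p ^ 2)).im| ≤ K) →
      ∀ s : ℂ, s ≠ 1 → F s = riemannZeta s ^ r * L s) :=
  Pool.Agent.PrimesOnly.cfinal hF hpole hL hLent hθ hc hσ₀ hE h

end Pool.Agent.Results.MP_995735_nt.PrimesOnly
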